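import Pool.Agent.Work.MP_8f8a35_gt.Main
import Pool.Agent.Work.MP_8f8a35_gt.Susp

set_option autoImplicit false

open MeasureTheory Metric Set
open scoped Pointwise

namespace Pool.Agent.Results.MP_8f8a35_gt.AllDim

/-- For every `m ≥ 6` there is a spherical simplex in the unit sphere `S ^ (m - 1)` of `ℝ ^ m` whose
dihedral angles `π - angle (n i) (n j)` are all rational multiples of `π` and whose volume is an
irrational multiple of the volume of the sphere. -/
theorem result (m : ℕ) (hm6 : 6 ≤ m) :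
    ∃ n : Fin m → EuclideanSpace ℝ (Fin m), LinearIndependent ℝ n ∧
    (∀ i j : Fin m, i ≠ j →
      ∃ q : ℚ, Real.pi - InnerProductGeometry.angle (n i) (n j) = (q : ℝ) * Real.pi) ∧
    Irrational
      (((volume : Measure (EuclideanSpace ℝ (Fin m))).toSphere
          {x : sphere (0 : EuclideanSpace ℝ (Fin m)) 1 |
            ∀ i, 0 ≤ inner ℝ (n i) (x : EuclideanSpace ℝ (Fin m))}).toReal /
        ((volume : Measure (EuclideanSpace ℝ (Fin m))).toSphere univ).toReal) := by
  have hI : Pool.Agent.CS5.Irr m := by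
    induction m, hm6 using Nat.le_induction with
    | base =>
      by_contra hcon
      refine Pool.Agent.CS5.not_hyp fun n hn ha => ?_
      by_contra h
      exact hcon ⟨n, hn, ha, h⟩
    | succ d hd ih => exact ih.succ (by omega)
  obtain ⟨n, hn, ha, hv⟩ := hI
  have : Nonempty (Fin m) := ⟨⟨0, by omega⟩⟩
  by_contra hcon
  apply hv
  have h1 : ¬ Irrational
      (((volume : Measure (EuclideanSpace ℝ (Fin m))).toSphere
          {x : sphere (0 : EuclideanSpace ℝ (Fin m)) 1 |
            ∀ i, 0 ≤ inner ℝ (n i) (x : EuclideanSpace ℝ (Fin m))}).toReal /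
        ((volume : Measure (EuclideanSpace ℝ (Fin m))).toSphere univ).toReal) := by
    intro h
    refine hcon ⟨n, hn, fun i j hij => ?_, h⟩
    obtain ⟨q, hq⟩ := ha i j hij
    exact ⟨1 - q, by rw [hq]; push_cast; ring⟩
  obtain ⟨r, hr⟩ := not_not.1 h1
  refine ⟨r, ?_⟩
  have hm : MeasurableSet {x : sphere (0 : EuclideanSpace ℝ (Fin m)) 1 |
      ∀ i, 0 ≤ inner ℝ (n i) (x : EuclideanSpace ℝ (Fin m))} := by
    rw [ofPred_forall]
    refine MeasurableSet.iInter fun i => ?_
    exact (isClosed_le continuous_const (by fun_prop)).measurableSet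
  have hS : (volume : Measure (EuclideanSpace ℝ (Fin m))) (sphere 0 1) = 0 :=
    Measure.addHaar_sphere _ _ _
  have h0 : (volume : Measure (EuclideanSpace ℝ (Fin m))) {0} = 0 := measure_singleton _
  have hE : (volume : Measure (EuclideanSpace ℝ (Fin m)))
      (Ioo (0 : ℝ) 1 • (Subtype.val '' {x : sphere (0 : EuclideanSpace ℝ (Fin m)) 1 |
        ∀ i, 0 ≤ inner ℝ (n i) (x : EuclideanSpace ℝ (Fin m))}))
      = volume {x : EuclideanSpace ℝ (Fin m) | ‖x‖ ≤ 1 ∧ ∀ i, 0 ≤ inner ℝ (n i) x} := by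
    apply measure_congr
    have e1 : ∀ᵐ x : EuclideanSpace ℝ (Fin m), x ∉ sphere (0 : EuclideanSpace ℝ (Fin m)) 1 :=
      measure_eq_zero_iff_ae_notMem.1 hS
    have e2 : ∀ᵐ x : EuclideanSpace ℝ (Fin m), x ∉ ({0} : Set (EuclideanSpace ℝ (Fin m))) :=
      measure_eq_zero_iff_ae_notMem.1 h0
    filter_upwards [e1, e2] with x hx1 hx2
    apply propext
    constructor
    · rintro ⟨c, hc, y, ⟨z, hz, rfl⟩, rfl⟩
      have hz1 : ‖(z : EuclideanSpace ℝ (Fin m))‖ = 1 := by simpa using z.2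
      refine ⟨?_, fun i => ?_⟩
      · simp only [norm_smul, hz1, mul_one, Real.norm_eq_abs, abs_of_pos hc.1]
        exact hc.2.le
      · simp only [inner_smul_right]
        exact mul_nonneg hc.1.le (hz i)
    · rintro ⟨hx3, hx4⟩
      have hx0 : 0 < ‖x‖ := norm_pos_iff.2 (by simpa using hx2)
      have hx5 : ‖x‖ < 1 := lt_of_le_of_ne hx3 (by simpa using hx1)
      refine ⟨‖x‖, ⟨hx0, hx5⟩, ‖x‖⁻¹ • x, ⟨⟨‖x‖⁻¹ • x, ?_⟩, fun i => ?_, rfl⟩, ?_⟩
      · simp [norm_smul, hx0.ne']
      · simp only [inner_smul_right]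
        exact mul_nonneg (inv_nonneg.2 hx0.le) (hx4 i)
      · simp [smul_smul, hx0.ne']
  rw [Measure.toSphere_apply' _ hm, Measure.toSphere_apply_univ, hE,
    ← Measure.addHaar_closedBall_eq_addHaar_ball] at hr
  have hB0 : (volume (closedBall (0 : EuclideanSpace ℝ (Fin m)) 1)).toReal ≠ 0 :=
    ENNReal.toReal_ne_zero.2 ⟨(measure_closedBall_pos _ _ one_pos).ne', measure_closedBall_lt_top.ne⟩
  simp only [ENNReal.toReal_mul, finrank_euclideanSpace, Fintype.card_fin, ENNReal.toReal_natCast] at hr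
  have hd0 : (m : ℝ) ≠ 0 := Nat.cast_ne_zero.2 (by omega)
  rw [hr]
  field_simp

end Pool.Agent.Results.MP_8f8a35_gt.AllDim
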